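import Pool.Agent.K7.H21.Aut6.Cube
import Pool.Agent.TH7.Cyc.Parity

set_option autoImplicit false

/-!
# The fixed symbols of an automorphism of a variational set of at least `m` cubes
-/

namespace Pool.Agent.K7.H21.Aut6

open Function Finset Pool.Agent.H430R2.PermCubes

/-- the fixed symbols of a permutation -/
def fixes {n : ℕ} (p : Equiv.Perm (Fin n)) : Finset (Fin n) := univ.filter fun s => p s = s

theorem mem_fixes {n : ℕ} {p : Equiv.Perm (Fin n)} {s : Fin n} : s ∈ fixes p ↔ p s = s := by
  simp [fixes]

variable {m n k : ℕ} {C : Fin k → (Fin m → Fin n) → Fin n} {p : Fin m → Equiv.Perm (Fin n)}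
  {q : Fin k → Equiv.Perm (Fin n)}

/-- every symbol occurs in a cube -/
theorem cube_surj (hm : 1 ≤ m) {f : (Fin m → Fin n) → Fin n} (hf : IsPermutationCube m n f) :
    Surjective f := by
  intro s
  obtain ⟨t, ht⟩ := (hf ⟨0, hm⟩ (fun _ => s)).2 s
  exact ⟨_, ht⟩

theorem q_invol (hm : 1 ≤ m) (hC : ∀ o, IsPermutationCube m n (C o)) (hA : IsAut C p q)
    (hp2 : ∀ i s, p i (p i s) = s) (o : Fin k) (s : Fin n) : q o (q o s) = s := by
  obtain ⟨x, rfl⟩ := cube_surj hm (hC o) s
  rw [← hA, ← hA]
  simp only [hp2]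

/-- a cell whose image has the same symbols is fixed -/
theorem cell_fixed (hk : m ≤ k) (hC : IsVariationalSet m n k C) (hA : IsAut C p q)
    {x : Fin m → Fin n} (hx : ∀ o, q o (C o x) = C o x) (i : Fin m) : p i (x i) = x i := by
  have h1 := (hC.2 (Fin.castLE hk) (Fin.castLE_injective hk)).1
  have h2 : (fun i => p i (x i)) = x := by
    apply h1
    funext o
    show C _ (fun i => p i (x i)) = C _ x
    rw [hA, hx]
  exact congrFun h2 i

/-- the involution acts freely on an even positive number of coordinates: impossible -/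
theorem no_even (hk : m ≤ k) (hn : n % 4 = 2) (hC : IsVariationalSet m n k C)
    (hA : IsAut C p q) (hp2 : ∀ i s, p i (p i s) = s) (he : (free p).card % 2 = 0)
    (hne : (free p).Nonempty) : False := by
  obtain ⟨i, hi⟩ := hne
  have hm : 1 ≤ m := by have := i.2; omega
  have hw : ∀ o, ∃ s, q o s = s := fun o =>
    exists_fixed_of_even (hC.1 o) hn hp2 (q_invol hm hC.1 hA hp2 o) (hA o) he
  choose w hw using hw
  obtain ⟨x, hx⟩ := (hC.2 (Fin.castLE hk) (Fin.castLE_injective hk)).2
    (fun o => w (Fin.castLE hk o))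
  refine mem_free.1 hi (x i) (cell_fixed le_rfl (C := fun o => C (Fin.castLE hk o))
    (q := fun o => q (Fin.castLE hk o)) ⟨fun o => hC.1 _, fun e he =>
      hC.2 _ ((Fin.castLE_injective hk).comp he)⟩ (fun o x => hA _ x) (fun o => ?_) i)
  have h1 : C (Fin.castLE hk o) x = w (Fin.castLE hk o) := congrFun hx o
  rw [h1, hw]

/-- the involution acts freely on all symbols of `m + 1` cubes: the dimension is odd -/
theorem odd_free {C : Fin (m + 1) → (Fin m → Fin n) → Fin n} (hn : n % 4 = 2)
    (hC : IsVariationalSet m n (m + 1) C) {q : Fin (m + 1) → Equiv.Perm (Fin n)}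
    (hA : IsAut C p q) (hp2 : ∀ i s, p i (p i s) = s) (ho : (free p).card % 2 = 1) :
    m % 2 = 1 := by
  have hq1 : ∀ o s, q o s ≠ s := fun o s => no_fixed_of_odd (hC.1 o) hn hp2 (hA o) ho s
  obtain ⟨i, hi⟩ : (free p).Nonempty := by rw [← Finset.card_pos]; omega
  have hm : 1 ≤ m := by have := i.2; omega
  have hq2 := q_invol hm hC.1 hA hp2
  by_contra hcon
  have hme : Even m := Nat.even_iff.2 (by omega)
  refine Pool.Agent.TH7.Cyc.no_flip hme hn hC (fun o => half (q o)) (fun o => ?_)
    (Equiv.piCongrRight p) (fun o x => ?_)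
  · rw [card_half (k := n / 2) (by omega) (hq2 o) (hq1 o)]
    omega
  · have h1 : C o (Equiv.piCongrRight p x) = q o (C o x) := hA o x
    rw [h1, mem_half (hq2 o) (hq1 o)]

/-! ### automorphisms with a fixed cell -/

/-- changing one coordinate of a cell on which `p` acts through the coordinate `i` alone -/
theorem map_update {z : Fin m → Fin n} (hz : ∀ j, p j (z j) = z j) (i : Fin m) (t : Fin n) :
    (fun j => p j (update z i t j)) = update z i (p i t) := by
  funext j
  by_cases hj : j = i
  · subst hj; rw [update_self, update_self]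
  · rw [update_of_ne hj, update_of_ne hj, hz]

theorem symb_fixed_iff (hC : ∀ o, IsPermutationCube m n (C o)) (hA : IsAut C p q)
    {z : Fin m → Fin n} (hz : ∀ j, p j (z j) = z j) (o : Fin k) (i : Fin m) (t : Fin n) :
    C o (update z i t) ∈ fixes (q o) ↔ t ∈ fixes (p i) := by
  rw [mem_fixes, mem_fixes, ← hA, map_update hz]
  constructor
  · intro h
    exact (hC o i z).1 h
  · intro h
    rw [h]

theorem card_fixes (hC : ∀ o, IsPermutationCube m n (C o)) (hA : IsAut C p q)
    {z : Fin m → Fin n} (hz : ∀ j, p j (z j) = z j) (o : Fin k) (i : Fin m) :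
    (fixes (p i)).card = (fixes (q o)).card := by
  refine Finset.card_bij (fun t _ => C o (update z i t)) ?_ ?_ ?_
  · intro t ht
    exact (symb_fixed_iff hC hA hz o i t).2 ht
  · intro t _ t' _ h
    exact (hC o i z).1 h
  · intro s hs
    obtain ⟨t, ht⟩ := (hC o i z).2 s
    have ht' : C o (update z i t) = s := ht
    refine ⟨t, (symb_fixed_iff hC hA hz o i t).1 (by rw [ht']; exact hs), ht'⟩

/-- two coordinates, one of them moved: the symbols are moved -/
theorem symb_moved (hC : ∀ o, IsPermutationCube m n (C o)) (hA : IsAut C p q)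
    {z : Fin m → Fin n} (hz : ∀ j, p j (z j) = z j) (o : Fin k) {i j : Fin m} (hij : j ≠ i)
    {a : Fin n} (ha : a ∉ fixes (p i)) {t : Fin n} (ht : t ∈ fixes (p j)) :
    C o (update (update z i a) j t) ∉ fixes (q o) := by
  have hz' : ∀ l, p l (update z j t l) = update z j t l := by
    intro l
    by_cases hl : l = j
    · subst hl; rw [update_self]; exact mem_fixes.1 ht
    · rw [update_of_ne hl, hz]
  rw [update_comm hij.symm, symb_fixed_iff hC hA hz']
  exact ha

theorem two_mul_card_lt (hk : m ≤ k) (hC : IsVariationalSet m n k C)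
    (hA : IsAut C p q) {z : Fin m → Fin n} (hz : ∀ j, p j (z j) = z j) {i j : Fin m}
    (hij : j ≠ i) {a : Fin n} (ha : a ∉ fixes (p i)) (o₀ : Fin k) :
    2 * (fixes (q o₀)).card < n := by
  classical
  have hcard : ∀ o, (fixes (q o)).card = (fixes (q o₀)).card := fun o => by
    rw [← card_fixes hC.1 hA hz o j, ← card_fixes hC.1 hA hz o₀ j]
  have himg : ∀ o, (fixes (p j)).image (fun t => C o (update (update z i a) j t)) ⊆
      (fixes (q o))ᶜ := by
    intro o s hs
    obtain ⟨t, ht, rfl⟩ := Finset.mem_image.1 hs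
    exact Finset.mem_compl.2 (symb_moved hC.1 hA hz o hij ha ht)
  have himgc : ∀ o, ((fixes (p j)).image (fun t => C o (update (update z i a) j t))).card =
      (fixes (q o₀)).card := by
    intro o
    rw [Finset.card_image_of_injective _ (hC.1 o j _).1, card_fixes hC.1 hA hz o₀ j]
  have hcompl : ∀ o, ((fixes (q o))ᶜ).card = n - (fixes (q o₀)).card := by
    intro o
    rw [Finset.card_compl, Fintype.card_fin, hcard o]
  have hle : (fixes (q o₀)).card ≤ n - (fixes (q o₀)).card := by
    rw [← hcompl o₀, ← himgc o₀]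
    exact Finset.card_le_card (himg o₀)
  have hn0 : (fixes (q o₀)).card < n := by
    by_contra hcon
    have h1 : (fixes (p i)).card = n := by
      rw [card_fixes hC.1 hA hz o₀ i]
      have := Finset.card_le_univ (fixes (q o₀))
      rw [Fintype.card_fin] at this
      omega
    have h2 : fixes (p i) = univ := Finset.eq_univ_of_card _ (by rw [h1, Fintype.card_fin])
    exact ha (by rw [h2]; exact Finset.mem_univ _)
  by_contra hcon
  have heq : n - (fixes (q o₀)).card = (fixes (q o₀)).card := by omega
  -- now the moved symbols of every cube are those of the fixed symbols of the coordinate `j`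
  have hall : ∀ o t, t ∉ fixes (p j) → C o (update (update z i a) j t) ∈ fixes (q o) := by
    intro o t ht
    by_contra hcon'
    have h1 : (fixes (p j)).image (fun t => C o (update (update z i a) j t)) = (fixes (q o))ᶜ :=
      Finset.eq_of_subset_of_card_le (himg o) (by rw [hcompl, himgc, heq])
    have h2 : C o (update (update z i a) j t) ∈ (fixes (q o))ᶜ := Finset.mem_compl.2 hcon'
    rw [← h1] at h2
    obtain ⟨t', ht', he⟩ := Finset.mem_image.1 h2
    have : t' = t := (hC.1 o j _).1 he
    exact ht (this ▸ ht')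
  obtain ⟨b, hb⟩ : ∃ b, b ∉ fixes (p j) := by
    by_contra hcon'
    push Not at hcon'
    have h2 : fixes (p j) = univ := Finset.eq_univ_iff_forall.2 hcon'
    have h3 := card_fixes hC.1 hA hz o₀ j
    rw [h2, Finset.card_univ, Fintype.card_fin] at h3
    omega
  apply hb
  rw [mem_fixes]
  have := cell_fixed hk hC hA (x := update (update z i a) j b)
    (fun o => mem_fixes.1 (hall _ b hb)) j
  rwa [update_self] at this

theorem card_fixes_ne_two (hk : m ≤ k) (hC : IsVariationalSet m n k C)
    (hA : IsAut C p q) {z : Fin m → Fin n} (hz : ∀ j, p j (z j) = z j) {i j : Fin m}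
    (hij : j ≠ i) (o₀ : Fin k) : (fixes (q o₀)).card ≠ 2 := by
  classical
  intro h2
  have hq : ∀ o, (fixes (q o)).card = 2 := fun o => by
    rw [← card_fixes hC.1 hA hz o j, card_fixes hC.1 hA hz o₀ j, h2]
  have hp : ∀ l, (fixes (p l)).card = 2 := fun l => by
    rw [card_fixes hC.1 hA hz o₀ l, h2]
  have hex : ∀ l, ∃ t, t ∈ fixes (p l) ∧ t ≠ z l := by
    intro l
    exact Finset.exists_mem_ne (by rw [hp]; norm_num) _
  obtain ⟨a, ha, haz⟩ := hex i
  obtain ⟨b, hb, hbz⟩ := hex j
  have hz' : ∀ l, p l (update z i a l) = update z i a l := by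
    intro l
    by_cases hl : l = i
    · subst hl; rw [update_self]; exact mem_fixes.1 ha
    · rw [update_of_ne hl, hz]
  have hsame : ∀ o, C o (update (update z i a) j b) = C o z := by
    intro o
    have h1 : C o z ∈ fixes (q o) := by
      have := (symb_fixed_iff hC.1 hA hz o i (z i)).2 (mem_fixes.2 (hz i))
      rwa [update_eq_self] at this
    have h3 : C o (update z i a) ∈ fixes (q o) := (symb_fixed_iff hC.1 hA hz o i a).2 ha
    have h4 : C o (update (update z i a) j b) ∈ fixes (q o) :=
      (symb_fixed_iff hC.1 hA hz' o j b).2 hb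
    have h5 : C o (update z i a) ≠ C o z := by
      intro h'
      apply haz
      apply (hC.1 o i z).1
      show C o (update z i a) = C o (update z i (z i))
      rw [update_eq_self, h']
    have h6 : C o (update (update z i a) j b) ≠ C o (update z i a) := by
      intro h'
      apply hbz
      apply (hC.1 o j (update z i a)).1
      show C o (update (update z i a) j b) = C o (update (update z i a) j (z j))
      have : update (update z i a) j (z j) = update z i a := by
        rw [update_eq_iff]
        exact ⟨by rw [update_of_ne hij], fun _ _ => rfl⟩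
      rw [this, h']
    by_contra hcon
    have : ({C o z, C o (update z i a), C o (update (update z i a) j b)} : Finset (Fin n)).card
        = 3 := by
      rw [Finset.card_eq_three]
      exact ⟨_, _, _, h5.symm, fun h' => hcon h'.symm, fun h' => h6 h'.symm, rfl⟩
    have h7 : ({C o z, C o (update z i a), C o (update (update z i a) j b)} : Finset (Fin n)) ⊆
        fixes (q o) := by
      intro s hs
      simp only [Finset.mem_insert, Finset.mem_singleton] at hs
      rcases hs with rfl | rfl | rfl
      · exact h1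
      · exact h3
      · exact h4
    have h8 := Finset.card_le_card h7
    rw [this, hq] at h8
    omega
  have h1 := (hC.2 (Fin.castLE hk) (Fin.castLE_injective hk)).1
  have h9 : update (update z i a) j b = z := by
    apply h1
    funext o
    exact hsame _
  have := congrFun h9 i
  rw [update_of_ne hij.symm, update_self] at this
  exact haz this

/-- **Automorphisms with a fixed cell.** All components have the same number of fixed symbols, it
is not two and less than half of the order. -/
theorem fixed_cell (hm : 2 ≤ m) (hk : m ≤ k) (hC : IsVariationalSet m n k C)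
    (hA : IsAut C p q) (hp : p ≠ 1) (hF : free p = ∅) :
    ∃ f, 1 ≤ f ∧ f ≠ 2 ∧ 2 * f < n ∧ (∀ i, (fixes (p i)).card = f) ∧
      ∀ o, (fixes (q o)).card = f := by
  have hz : ∀ i, ∃ z, p i z = z := by
    intro i
    have hi : i ∉ free p := by rw [hF]; simp
    rw [mem_free] at hi
    push Not at hi
    exact hi
  choose z hz using hz
  obtain ⟨i, hi⟩ : ∃ i, p i ≠ 1 := by
    by_contra hcon
    push Not at hcon
    exact hp (funext hcon)
  obtain ⟨a, ha⟩ : ∃ a, a ∉ fixes (p i) := by
    by_contra hcon
    push Not at hcon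
    apply hi
    ext s
    have := mem_fixes.1 (hcon s)
    simp [this]
  obtain ⟨j, hij⟩ : ∃ j : Fin m, j ≠ i := by
    have : Nontrivial (Fin m) := Fin.nontrivial_iff_two_le.2 hm
    exact exists_ne i
  obtain ⟨o₀⟩ : Nonempty (Fin k) := ⟨⟨0, by omega⟩⟩
  refine ⟨(fixes (q o₀)).card, ?_, card_fixes_ne_two hk hC hA hz hij o₀,
    two_mul_card_lt hk hC hA hz hij ha o₀, fun l => card_fixes hC.1 hA hz o₀ l, fun o => ?_⟩
  · rw [← card_fixes hC.1 hA hz o₀ i]
    exact Finset.card_pos.2 ⟨z i, mem_fixes.2 (hz i)⟩
  · rw [← card_fixes hC.1 hA hz o i, card_fixes hC.1 hA hz o₀ i]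

theorem even_fixes {n : ℕ} (hn : n % 2 = 0) {p : Equiv.Perm (Fin n)} (hp : ∀ s, p (p s) = s) :
    Even (fixes p).card := by
  have h : p ^ 2 ^ 1 = 1 := by
    ext s
    simp [pow_two, hp]
  have : Fact (Nat.Prime 2) := ⟨Nat.prime_two⟩
  have h1 := Equiv.Perm.card_compl_support_modEq (p := 2) (n := 1) h
  have h2 : p.supportᶜ = fixes p := by
    ext s
    simp [fixes]
  rw [h2, Fintype.card_fin] at h1
  have h3 : (fixes p).card % 2 = n % 2 := h1
  exact Nat.even_iff.2 (by omega)

/-- **Automorphisms of order two of a variational set of `k ≥ m` cubes, order `2 mod 4`.** -/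
theorem involution (hm : 2 ≤ m) (hk : m ≤ k) (hn : n % 4 = 2) (hC : IsVariationalSet m n k C)
    (hA : IsAut C p q) (hp2 : ∀ i s, p i (p i s) = s) (hp : p ≠ 1) :
    (∃ f, Even f ∧ 4 ≤ f ∧ 2 * f < n ∧ (∀ i, (fixes (p i)).card = f) ∧
      ∀ o, (fixes (q o)).card = f) ∨
    (Odd (free p).card ∧ (∀ o s, q o s ≠ s) ∧ (m < k → Odd m)) := by
  rcases Nat.even_or_odd (free p).card with he | ho
  · left
    rcases (free p).eq_empty_or_nonempty with h0 | h0
    · obtain ⟨f, h1, h2, h3, h4, h5⟩ := fixed_cell hm hk hC hA hp h0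
      have h6 : Even f := by
        rw [← h4 ⟨0, by omega⟩]
        exact even_fixes (by omega) (hp2 _)
      refine ⟨f, h6, ?_, h3, h4, h5⟩
      obtain ⟨r, hr⟩ := h6
      omega
    · exact (no_even hk hn hC hA hp2 (Nat.even_iff.1 he) h0).elim
  · right
    refine ⟨ho, fun o s => no_fixed_of_odd (hC.1 o) hn hp2 (hA o) (Nat.odd_iff.1 ho) s,
      fun hlt => Nat.odd_iff.2 ?_⟩
    exact odd_free (C := fun o => C (Fin.castLE hlt o)) (q := fun o => q (Fin.castLE hlt o)) hn
      ⟨fun o => hC.1 _, fun e he => hC.2 _ ((Fin.castLE_injective hlt).comp he)⟩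
      (fun o x => hA _ x) hp2 (Nat.odd_iff.1 ho)

end Pool.Agent.K7.H21.Aut6
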