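import Pool.Agent.K7.H21.Aut6.Parity
import Pool.Agent.H430R2.PermCubes.Upper

set_option autoImplicit false

/-!
# Automorphisms of order two of permutation cubes of order `2 mod 4`
-/

namespace Pool.Agent.K7.H21.Aut6

open Function Finset Pool.Agent.H430R2.PermCubes

/-- `(p, q)` is an automorphism of the family `C` that fixes all coordinates: permuting the
`i`-th coordinate of the cells by `p i` permutes the symbols of the `o`-th cube by `q o`. -/
def IsAut {m n k : ℕ} (C : Fin k → (Fin m → Fin n) → Fin n) (p : Fin m → Equiv.Perm (Fin n))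
    (q : Fin k → Equiv.Perm (Fin n)) : Prop :=
  ∀ o x, C o (fun i => p i (x i)) = q o (C o x)

/-- the coordinates in which `p` fixes no symbol -/
def free {m n : ℕ} (p : Fin m → Equiv.Perm (Fin n)) : Finset (Fin m) :=
  univ.filter fun i => ∀ s, p i s ≠ s

variable {m n : ℕ} {f : (Fin m → Fin n) → Fin n} {p : Fin m → Equiv.Perm (Fin n)}
  {q : Equiv.Perm (Fin n)}

theorem mem_free {i : Fin m} : i ∈ free p ↔ ∀ s, p i s ≠ s := by
  rw [free, Finset.mem_filter]
  exact ⟨fun h => h.2, fun h => ⟨Finset.mem_univ _, h⟩⟩

/-- the cell with coordinates `y` in the directions `S` and `z` in the others -/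
def ext (S : Finset (Fin m)) (z : Fin m → Fin n) (y : {i // i ∈ S} → Fin n) : Fin m → Fin n :=
  fun i => if h : i ∈ S then y ⟨i, h⟩ else z i

theorem ext_update (S : Finset (Fin m)) (z : Fin m → Fin n) (y : {i // i ∈ S} → Fin n)
    (i : {i // i ∈ S}) (t : Fin n) : ext S z (update y i t) = update (ext S z y) i.1 t := by
  funext j
  by_cases hj : j = i.1
  · subst hj
    simp [ext]
  · rw [update_of_ne hj]
    by_cases h : j ∈ S
    · have : (⟨j, h⟩ : {i // i ∈ S}) ≠ i := fun h' => hj (by rw [← h'])
      simp [ext, h, update_of_ne this]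
    · simp [ext, h]

theorem ext_perm (S : Finset (Fin m)) (z : Fin m → Fin n) (hz : ∀ i, i ∉ S → p i (z i) = z i)
    (y : {i // i ∈ S} → Fin n) :
    ext S z (fun i => p i.1 (y i)) = fun i => p i (ext S z y i) := by
  funext j
  by_cases h : j ∈ S
  · simp [ext, h]
  · simp [ext, h, hz j h]

/-- an even positive number of coordinates without fixed symbols: some symbol is fixed -/
theorem exists_fixed_of_even (hf : ∀ (i : Fin m) (x : Fin m → Fin n),
      Bijective fun t => f (update x i t)) (hn : n % 4 = 2)
    (hp2 : ∀ i s, p i (p i s) = s) (hq2 : ∀ s, q (q s) = s)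
    (h : ∀ x, f (fun i => p i (x i)) = q (f x)) (he : (free p).card % 2 = 0) :
    ∃ s, q s = s := by
  classical
  by_contra hcon
  push Not at hcon
  have hz : ∀ i, ∃ z, i ∉ free p → p i z = z := by
    intro i
    by_cases hi : i ∈ free p
    · exact ⟨⟨0, by omega⟩, fun h' => absurd hi h'⟩
    · have : ¬ ∀ s, p i s ≠ s := by simpa [free] using hi
      push Not at this
      obtain ⟨z, hz⟩ := this
      exact ⟨z, fun _ => hz⟩
  choose z hz using hz
  refine no_free (I := {i // i ∈ free p}) (f := fun y => f (ext (free p) z y)) ?_ hn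
    (by rw [Fintype.card_coe]; exact he) (fun i => p i.1) q (fun i => hp2 i.1) ?_ hq2 hcon ?_
  · intro i y
    simp only [ext_update]
    exact hf _ _
  · intro i
    exact mem_free.1 i.2
  · intro y
    show f (ext (free p) z (fun i => p i.1 (y i))) = _
    rw [ext_perm (free p) z hz, h]

/-- an odd number of coordinates without fixed symbols: no symbol is fixed -/
theorem no_fixed_of_odd (hf : ∀ (i : Fin m) (x : Fin m → Fin n),
      Bijective fun t => f (update x i t)) (hn : n % 4 = 2)
    (hp2 : ∀ i s, p i (p i s) = s)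
    (h : ∀ x, f (fun i => p i (x i)) = q (f x)) (ho : (free p).card % 2 = 1) (s : Fin n) :
    q s ≠ s := by
  classical
  intro hs
  obtain ⟨i₀, hi₀⟩ : (free p).Nonempty := by rw [← Finset.card_pos]; omega
  have hz : ∀ i, ∃ z, i ∉ free p → p i z = z := by
    intro i
    by_cases hi : i ∈ free p
    · exact ⟨⟨0, by omega⟩, fun h' => absurd hi h'⟩
    · have : ¬ ∀ s, p i s ≠ s := by simpa [free] using hi
      push Not at this
      obtain ⟨z, hz⟩ := this
      exact ⟨z, fun _ => hz⟩
  choose z hz using hz
  set S := (free p).erase i₀ with hS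
  -- the hypercube of the coordinate `i₀` of the cells with symbol `s`
  have hex : ∀ y : {i // i ∈ S} → Fin n, ∃ t, f (update (ext S z y) i₀ t) = s :=
    fun y => (hf i₀ _).2 s
  choose g hg using hex
  have hgu : ∀ y t, f (update (ext S z y) i₀ t) = s → g y = t := fun y t ht =>
    (hf i₀ (ext S z y)).1 ((hg y).trans ht.symm)
  have hi₀S : ∀ i : {i // i ∈ S}, i.1 ≠ i₀ := fun i => (Finset.mem_erase.1 i.2).1
  have hfree : ∀ i ∈ free p, ∀ t, p i t ≠ t := fun i hi => mem_free.1 hi
  refine no_free (I := {i // i ∈ S}) (f := g) ?_ hn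
    (by rw [Fintype.card_coe, hS, Finset.card_erase_of_mem hi₀]; omega) (fun i => p i.1) (p i₀)
    (fun i => hp2 i.1) (fun i => hfree i.1 (Finset.mem_of_mem_erase i.2)) (hp2 i₀)
    (hfree i₀ hi₀) ?_
  · intro i y
    rw [← Finite.injective_iff_bijective]
    intro t t' htt
    have htt' : g (update y i t) = g (update y i t') := htt
    have h1 := hg (update y i t)
    have h2 := hg (update y i t')
    rw [← htt', ext_update, update_comm (hi₀S i)] at h2
    rw [ext_update, update_comm (hi₀S i)] at h1
    exact (hf i.1 _).1 (h1.trans h2.symm)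
  · intro y
    apply hgu
    have h1 : update (ext S z fun i => p i.1 (y i)) i₀ (p i₀ (g y)) =
        fun i => p i (update (ext S z y) i₀ (g y) i) := by
      funext j
      by_cases hj : j = i₀
      · subst hj; rw [update_self, update_self]
      · rw [update_of_ne hj, update_of_ne hj]
        by_cases hjS : j ∈ S
        · simp [ext, hjS]
        · have : j ∉ free p := fun h' => hjS (Finset.mem_erase.2 ⟨hj, h'⟩)
          simp [ext, hjS, hz j this]
    rw [h1, h, hg, hs]

end Pool.Agent.K7.H21.Aut6
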