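import Pool.Agent.K7.H21.Aut6.Core
import Pool.Agent.TH7.Cyc.Main
import Pool.Agent.TH302.Tarry.Upper

set_option autoImplicit false

/-!
# The automorphism group of a variational set of `m + 1` cubes of order six
-/

namespace Pool.Agent.K7.H21.Aut6

open Function Finset Pool.Agent.H430R2.PermCubes

/-- the group of the automorphisms `(p, q)` of the family `C` -/
def autGroup {m n k : ℕ} (C : Fin k → (Fin m → Fin n) → Fin n) :
    Subgroup ((Fin m → Equiv.Perm (Fin n)) × (Fin k → Equiv.Perm (Fin n))) where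
  carrier := {g | IsAut C g.1 g.2}
  mul_mem' := by
    rintro ⟨p, q⟩ ⟨p', q'⟩ h h' o x
    show C o (fun i => p i (p' i (x i))) = q o (q' o (C o x))
    rw [← h' o x]
    exact h o (fun i => p' i (x i))
  one_mem' := fun _ _ => rfl
  inv_mem' := by
    rintro ⟨p, q⟩ h o x
    show C o (fun i => (p i)⁻¹ (x i)) = (q o)⁻¹ (C o x)
    rw [Equiv.Perm.eq_inv_iff_eq]
    have h1 := h o (fun i => (p i)⁻¹ (x i))
    have h2 : (fun i => p i ((p i)⁻¹ (x i))) = x := by
      funext i
      exact (p i).apply_symm_apply (x i)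
    rw [h2] at h1
    exact h1.symm

variable {m n k : ℕ} {C : Fin k → (Fin m → Fin n) → Fin n}

theorem mem_autGroup {p : Fin m → Equiv.Perm (Fin n)} {q : Fin k → Equiv.Perm (Fin n)} :
    (p, q) ∈ autGroup C ↔ IsAut C p q := Iff.rfl

theorem isAut_pow {p : Fin m → Equiv.Perm (Fin n)} {q : Fin k → Equiv.Perm (Fin n)}
    (h : IsAut C p q) (r : ℕ) : IsAut C (p ^ r) (q ^ r) :=
  (autGroup C).pow_mem (mem_autGroup.2 h) r

/-- an automorphism that moves no cell is trivial -/
theorem q_eq_one (hm : 1 ≤ m) (hC : ∀ o, IsPermutationCube m n (C o))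
    {q : Fin k → Equiv.Perm (Fin n)} (h : IsAut C 1 q) : q = 1 := by
  funext o
  ext s
  obtain ⟨x, rfl⟩ := cube_surj hm (hC o) s
  have h1 : C o x = q o (C o x) := h o x
  rw [← h1]
  rfl

theorem invol_apply {p : Fin m → Equiv.Perm (Fin n)} (h : p ^ 2 = 1) (i : Fin m) (s : Fin n) :
    p i (p i s) = s := by
  have := congrFun h i
  rw [Pi.pow_apply, pow_two] at this
  exact Equiv.congr_fun this s

/-- order six: an automorphism of order two acts freely on the symbols of every cube, and for more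
than `m` cubes the dimension is odd -/
theorem six_involution {C : Fin k → (Fin m → Fin 6) → Fin 6} (hm : 2 ≤ m) (hk : m ≤ k)
    (hC : IsVariationalSet m 6 k C) {p : Fin m → Equiv.Perm (Fin 6)}
    {q : Fin k → Equiv.Perm (Fin 6)} (hA : IsAut C p q) (hp2 : p ^ 2 = 1) (hp : p ≠ 1) :
    (m < k → Odd m) ∧ ∀ o s, q o s ≠ s := by
  rcases involution hm hk (by norm_num) hC hA (invol_apply hp2) hp with
    ⟨f, -, h4, h6, -⟩ | ⟨-, h2, h1⟩
  · omega
  · exact ⟨h1, h2⟩

theorem exists_order_two {G : Type*} [Group G] [Finite G]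
    (h : 2 ∣ Nat.card G) : ∃ g : G, g ^ 2 = 1 ∧ g ≠ 1 := by
  have : Fact (Nat.Prime 2) := ⟨Nat.prime_two⟩
  obtain ⟨g, hg⟩ := exists_prime_orderOf_dvd_card' 2 h
  refine ⟨g, by rw [← hg]; exact pow_orderOf_eq_one g, fun h1 => ?_⟩
  rw [h1, orderOf_one] at hg
  norm_num at hg

/-- the components of an element of order two of the automorphism group -/
theorem comp_of_order_two (hm : 1 ≤ m) (hC : ∀ o, IsPermutationCube m n (C o))
    {g : (Fin m → Equiv.Perm (Fin n)) × (Fin k → Equiv.Perm (Fin n))} (hg : g ∈ autGroup C)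
    (h2 : g ^ 2 = 1) (h1 : g ≠ 1) : IsAut C g.1 g.2 ∧ g.1 ^ 2 = 1 ∧ g.1 ≠ 1 := by
  refine ⟨hg, by rw [← Prod.pow_fst, h2]; rfl, fun h => h1 ?_⟩
  have h3 : IsAut C g.1 g.2 := hg
  rw [h] at h3
  exact Prod.ext h (q_eq_one hm hC h3)

/-- **Even dimension, order six, more than `m` cubes**: the automorphism group has odd order. -/
theorem odd_card {C : Fin k → (Fin m → Fin 6) → Fin 6} (hm : 2 ≤ m) (hk : m < k)
    (hC : IsVariationalSet m 6 k C) (he : Even m) : Odd (Nat.card (autGroup C)) := by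
  rw [← Nat.not_even_iff_odd, even_iff_two_dvd]
  intro h
  obtain ⟨g, hg2, hg1⟩ := exists_order_two h
  obtain ⟨hA, h2, h1⟩ := comp_of_order_two (by omega) hC.1 g.2
    (by have := congrArg Subtype.val hg2; simpa using this)
    (fun h' => hg1 (Subtype.ext h'))
  obtain ⟨ho, -⟩ := six_involution hm hk.le hC hA h2 h1
  exact absurd (ho hk) (Nat.not_odd_iff_even.2 he)

/-- a free involution of six symbols is odd -/
theorem sign_free {q : Equiv.Perm (Fin 6)} (h2 : q ^ 2 = 1) (h1 : ∀ s, q s ≠ s) :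
    Equiv.Perm.sign q = -1 := by
  rw [Equiv.Perm.sign_of_pow_two_eq_one h2]
  have : IsEmpty (Function.fixedPoints q) := ⟨fun s => h1 s.1 s.2⟩
  rw [Fintype.card_eq_zero (α := Function.fixedPoints q), Fintype.card_fin]
  norm_num

/-- the sign of the permutation of the symbols of the cube `o` -/
def signHom (C : Fin k → (Fin m → Fin n) → Fin n) (o : Fin k) : autGroup C →* ℤˣ where
  toFun g := Equiv.Perm.sign (g.1.2 o)
  map_one' := by simp
  map_mul' g g' := by simp

/-- **Order six**: the order of the automorphism group is not divisible by four. -/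
theorem not_four_dvd {C : Fin k → (Fin m → Fin 6) → Fin 6} (hm : 2 ≤ m) (hk : m ≤ k)
    (hC : IsVariationalSet m 6 k C) : ¬ 4 ∣ Nat.card (autGroup C) := by
  intro h4
  obtain ⟨o⟩ : Nonempty (Fin k) := ⟨⟨0, by omega⟩⟩
  have h1 := (signHom C o).ker.card_mul_index
  have h2 : (signHom C o).ker.index ∣ 2 := by
    rw [Subgroup.index_ker]
    have h3 := Subgroup.card_subgroup_dvd_card (signHom C o).range
    have h5 : Nat.card ℤˣ = 2 := by
      rw [Nat.card_eq_fintype_card]
      rfl
    rwa [h5] at h3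
  have h6 : 2 ∣ Nat.card (signHom C o).ker := by
    rw [← h1] at h4
    obtain ⟨c, hc⟩ := h2
    have : 4 * c ∣ Nat.card (signHom C o).ker * 2 := by
      have := Nat.mul_dvd_mul_right h4 c
      rwa [mul_assoc, ← hc] at this
    have hc0 : c ≠ 0 := by rintro rfl; omega
    have h7 : 2 * 2 ∣ Nat.card (signHom C o).ker * 2 :=
      (Dvd.intro c (by ring)).trans this
    exact Nat.dvd_of_mul_dvd_mul_right (by norm_num) h7
  obtain ⟨g, hg2, hg1⟩ := exists_order_two h6
  obtain ⟨hA, h2', h1'⟩ := comp_of_order_two (by omega) hC.1 g.1.2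
    (by have := congrArg (fun x => x.1.1) hg2; simpa using this)
    (fun h' => hg1 (Subtype.ext (Subtype.ext h')))
  obtain ⟨-, hfree⟩ := six_involution hm hk hC hA h2' h1'
  have h8 : (g.1.1.2 o) ^ 2 = 1 := by
    ext s
    have := q_invol (by omega) hC.1 hA (invol_apply h2') o s
    rw [pow_two, Equiv.Perm.mul_apply, this]
    rfl
  have h9 := sign_free h8 (hfree o)
  have h10 : Equiv.Perm.sign (g.1.1.2 o) = 1 := g.2
  rw [h10] at h9
  exact absurd h9 (by decide)

end Pool.Agent.K7.H21.Aut6
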