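import Pool.Agent.K7.H21.Aut6.Group

set_option autoImplicit false

/-!
# The exact maximum of order six with an automorphism group of even order, and the order of the
automorphism group of `m + 1` cubes
-/

namespace Pool.Agent.K7.H21.Aut6

open Function Finset Pool.Agent.H430R2.PermCubes Pool.Agent.TH7.Cyc Pool.Agent.TH302.Cubes

/-! ### automorphisms with a fixed cell, order six -/

theorem fixes_one {n : ℕ} : fixes (1 : Equiv.Perm (Fin n)) = univ := by
  ext s; simp [fixes]

theorem card_fixes_modEq {r : ℕ} (hr : r.Prime) {p : Equiv.Perm (Fin 6)} (h : p ^ r = 1) :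
    (fixes p).card ≡ 6 [MOD r] := by
  have : Fact r.Prime := ⟨hr⟩
  have h1 := Equiv.Perm.card_compl_support_modEq (p := r) (n := 1) (by rwa [pow_one])
  have h2 : p.supportᶜ = fixes p := by
    ext s
    simp [fixes]
  rwa [h2, Fintype.card_fin] at h1

variable {m k : ℕ} {C : Fin k → (Fin m → Fin 6) → Fin 6}

theorem six_fixed (hm : 2 ≤ m) (hk : m ≤ k) (hC : IsVariationalSet m 6 k C)
    {p : Fin m → Equiv.Perm (Fin 6)} {q : Fin k → Equiv.Perm (Fin 6)} (hA : IsAut C p q)
    (hp : p ≠ 1) (hz : ∃ x : Fin m → Fin 6, ∀ i, p i (x i) = x i) :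
    (∀ i, (fixes (p i)).card = 1) ∧ ∀ o, (fixes (q o)).card = 1 := by
  obtain ⟨x, hx⟩ := hz
  have hF : free p = ∅ := by
    ext i
    rw [mem_free]
    simp only [Finset.notMem_empty, iff_false]
    push Not
    exact ⟨x i, hx i⟩
  obtain ⟨f, h1, h2, h3, h4, h5⟩ := fixed_cell hm hk hC hA hp hF
  have hf : f = 1 := by omega
  subst hf
  exact ⟨h4, h5⟩

theorem pow_apply_fixed {p : Fin m → Equiv.Perm (Fin 6)} {x : Fin m → Fin 6}
    (hx : ∀ i, p i (x i) = x i) (r : ℕ) (i : Fin m) : (p ^ r) i (x i) = x i := by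
  rw [Pi.pow_apply]
  induction r with
  | zero => simp
  | succ r ih => rw [pow_succ, Equiv.Perm.mul_apply, hx, ih]

theorem order_five (hm : 2 ≤ m) (hk : m ≤ k) (hC : IsVariationalSet m 6 k C)
    {p : Fin m → Equiv.Perm (Fin 6)} {q : Fin k → Equiv.Perm (Fin 6)} (hA : IsAut C p q)
    (hp : p ≠ 1) (hz : ∃ x : Fin m → Fin 6, ∀ i, p i (x i) = x i) : orderOf p = 5 := by
  obtain ⟨x, hx⟩ := hz
  have h0 : orderOf p ≠ 0 := (orderOf_pos p).ne'
  have hpr : ∀ {d : ℕ}, d.Prime → d ∣ orderOf p → d = 5 := by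
    intro d hd hdv
    obtain ⟨c, hc⟩ := hdv
    have hc0 : c ≠ 0 := by rintro rfl; exact h0 (by rw [hc, mul_zero])
    have hlt : c < orderOf p := by
      rw [hc]
      have := hd.two_le
      nlinarith [Nat.pos_of_ne_zero hc0]
    have hne : p ^ c ≠ 1 := pow_ne_one_of_lt_orderOf hc0 hlt
    obtain ⟨h1, -⟩ := six_fixed hm hk hC (isAut_pow hA c) hne ⟨x, pow_apply_fixed hx c⟩
    have h2 : ((p ^ c) ⟨0, by omega⟩) ^ d = 1 := by
      have : (p ^ c) ^ d = 1 := by
        rw [← pow_mul, mul_comm, ← hc, pow_orderOf_eq_one]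
      exact congrFun this _
    have h3 := card_fixes_modEq hd h2
    rw [h1] at h3
    have h4 : d ∣ 5 := by
      have := (Nat.modEq_iff_dvd' (by norm_num)).1 h3
      simpa using this
    exact (Nat.prime_dvd_prime_iff_eq hd Nat.prime_five).1 h4
  have h1 := Nat.eq_prime_pow_of_unique_prime_dvd h0 hpr
  have h2 : orderOf p ∣ 720 := by
    rw [orderOf_dvd_iff_pow_eq_one]
    funext i
    have h3 : (p i) ^ Fintype.card (Equiv.Perm (Fin 6)) = 1 := pow_card_eq_one
    rw [Fintype.card_perm, Fintype.card_fin] at h3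
    exact h3
  set a := (orderOf p).primeFactorsList.length with ha
  have h3 : a < 2 := by
    by_contra hcon
    push Not at hcon
    have : 5 ^ 2 ∣ 720 := (pow_dvd_pow 5 hcon).trans (h1 ▸ h2)
    revert this
    decide
  have h4 : a ≠ 0 := by
    intro h5
    rw [h5, pow_zero] at h1
    exact hp (orderOf_eq_one_iff.1 h1)
  have h5 : a = 1 := by omega
  rw [h1, h5, pow_one]

/-! ### the order of the automorphism group -/

/-- the permutation of the symbols of the coordinate `i` -/
def coordHom {n : ℕ} (C : Fin k → (Fin m → Fin n) → Fin n) (i : Fin m) :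
    autGroup C →* Equiv.Perm (Fin n) where
  toFun g := g.1.1 i
  map_one' := rfl
  map_mul' _ _ := rfl

theorem not_25_dvd (hm : 2 ≤ m) (hk : m ≤ k) (hC : IsVariationalSet m 6 k C) :
    ¬ 25 ∣ Nat.card (autGroup C) := by
  intro h25
  have : Fact (Nat.Prime 5) := ⟨Nat.prime_five⟩
  set φ := coordHom C ⟨0, by omega⟩ with hφ
  have h1 := φ.ker.card_mul_index
  have h2 : φ.ker.index ∣ 720 := by
    rw [Subgroup.index_ker]
    have h3 := Subgroup.card_subgroup_dvd_card φ.range
    have h5 : Nat.card (Equiv.Perm (Fin 6)) = 720 := by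
      rw [Nat.card_eq_fintype_card, Fintype.card_perm, Fintype.card_fin]
      rfl
    rwa [h5] at h3
  have h6 : 5 ∣ Nat.card φ.ker := by
    by_contra hcon
    have hco : Nat.Coprime 25 (Nat.card φ.ker) := by
      have : Nat.Coprime 5 (Nat.card φ.ker) := (Nat.Prime.coprime_iff_not_dvd Nat.prime_five).2 hcon
      exact Nat.Coprime.pow_left 2 this
    rw [← h1] at h25
    have h7 := (hco.dvd_of_dvd_mul_left h25).trans h2
    revert h7
    decide
  obtain ⟨g, hg⟩ := exists_prime_orderOf_dvd_card' 5 h6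
  have hg5 : g ^ 5 = 1 := by rw [← hg]; exact pow_orderOf_eq_one g
  have hg1 : g ≠ 1 := by
    intro h
    rw [h, orderOf_one] at hg
    norm_num at hg
  set p := g.1.1.1 with hp
  have hA : IsAut C p g.1.1.2 := g.1.2
  have hp5 : p ^ 5 = 1 := by
    have := congrArg (fun x => x.1.1.1) hg5
    simpa using this
  have hp1 : p ≠ 1 := by
    intro h
    have h3 := hA
    rw [h] at h3
    have h4 := q_eq_one (by omega) hC.1 h3
    exact hg1 (Subtype.ext (Subtype.ext (Prod.ext h h4)))
  have hfix : ∀ i, ∃ s, p i s = s := by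
    intro i
    have h3 := card_fixes_modEq Nat.prime_five (p := p i) (congrFun hp5 i)
    have h4 : (fixes (p i)).Nonempty := by
      rw [← Finset.card_pos]
      by_contra hcon
      have h5 : (fixes (p i)).card = 0 := by omega
      rw [h5] at h3
      exact absurd h3 (by decide)
    obtain ⟨s, hs⟩ := h4
    exact ⟨s, mem_fixes.1 hs⟩
  choose x hx using hfix
  obtain ⟨h3, -⟩ := six_fixed hm hk hC hA hp1 ⟨x, hx⟩
  have h4 : p ⟨0, by omega⟩ = 1 := g.2
  have h5 := h3 ⟨0, by omega⟩
  rw [h4, fixes_one] at h5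
  simp at h5

/-- **The order of the automorphism group** -/
theorem card_form (hm : 2 ≤ m) (hk : m ≤ k) (hC : IsVariationalSet m 6 k C) :
    ∃ a b c, Nat.card (autGroup C) = 2 ^ a * 3 ^ b * 5 ^ c ∧ a ≤ 1 ∧ c ≤ 1 ∧
      (Even m → m < k → a = 0) := by
  have h1 : Nat.card (autGroup C) ∣ (2 ^ (4 * (m + k)) * 3 ^ (2 * (m + k))) *
      5 ^ (m + k) := by
    have h2 := Subgroup.card_subgroup_dvd_card (autGroup C)
    have h3 : Nat.card ((Fin m → Equiv.Perm (Fin 6)) × (Fin k → Equiv.Perm (Fin 6))) =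
        (2 ^ (4 * (m + k)) * 3 ^ (2 * (m + k))) * 5 ^ (m + k) := by
      have h5 : Nat.card (Equiv.Perm (Fin 6)) = 720 := by
        rw [Nat.card_eq_fintype_card, Fintype.card_perm, Fintype.card_fin]
        rfl
      rw [Nat.card_prod, Nat.card_fun, Nat.card_fun, h5, Nat.card_eq_fintype_card,
        Nat.card_eq_fintype_card, Fintype.card_fin, Fintype.card_fin, ← pow_add, pow_mul,
        pow_mul, ← mul_pow, ← mul_pow]
      norm_num
    rwa [h3] at h2
  obtain ⟨u, c', hu, hc', huc⟩ := (Nat.dvd_mul).1 h1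
  obtain ⟨a', b', ha', hb', hab⟩ := (Nat.dvd_mul).1 hu
  obtain ⟨a, -, rfl⟩ := (Nat.dvd_prime_pow Nat.prime_two).1 ha'
  obtain ⟨b, -, rfl⟩ := (Nat.dvd_prime_pow Nat.prime_three).1 hb'
  obtain ⟨c, -, rfl⟩ := (Nat.dvd_prime_pow Nat.prime_five).1 hc'
  have hN : Nat.card (autGroup C) = 2 ^ a * 3 ^ b * 5 ^ c := by rw [← huc, ← hab]
  refine ⟨a, b, c, hN, ?_, ?_, fun he hlt => ?_⟩
  · by_contra hcon
    push Not at hcon
    apply not_four_dvd hm hk hC
    rw [hN]
    have : 2 ^ 2 ∣ 2 ^ a := pow_dvd_pow 2 (by omega)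
    exact (this.mul_right _).mul_right _
  · by_contra hcon
    push Not at hcon
    apply not_25_dvd hm hk hC
    rw [hN]
    have : 5 ^ 2 ∣ 5 ^ c := pow_dvd_pow 5 (by omega)
    exact this.mul_left _
  · by_contra hcon
    have h2 := odd_card hm hlt hC he
    rw [hN] at h2
    have h3 : Odd (2 ^ a) := Nat.Odd.of_mul_left (Nat.Odd.of_mul_left h2)
    have h4 : 2 ∣ 2 ^ a := dvd_pow_self 2 hcon
    exact (Nat.not_even_iff_odd.2 h3) (even_iff_two_dvd.2 h4)

/-! ### the exact maximum -/

/-- adding three to the coordinate `j` -/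
def shiftP (j : Fin m) : Fin m → Equiv.Perm (Fin 6) :=
  fun i => if i = j then Equiv.addRight 3 else 1

theorem shiftP_apply (j : Fin m) (x : Fin m → Fin 6) :
    (fun i => shiftP j i (x i)) = update x j (x j + 3) := by
  funext i
  by_cases hi : i = j
  · subst hi
    simp [shiftP]
  · rw [update_of_ne hi]
    simp [shiftP, hi]

theorem even_card_of_shift {I O : Type} [DecidableEq I] {F : (I → Fin 6) → O → Fin 6} {i₀ : I}
    (hs : Shift F i₀) (eI : Fin m ≃ I) (eO : Fin k → O) :
    Even (Nat.card (autGroup (fun (k : Fin k) (x : Fin m → Fin 6) =>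
      F (fun i => x (eI.symm i)) (eO k)))) := by
  set C' : Fin k → (Fin m → Fin 6) → Fin 6 := fun k x => F (fun i => x (eI.symm i)) (eO k)
    with hC'
  set j := eI.symm i₀ with hj
  have hA : IsAut C' (shiftP j) (fun _ => Equiv.addRight 3) := by
    intro o x
    have e : (fun l => (fun i => shiftP j i (x i)) (eI.symm l)) =
        update (fun l => x (eI.symm l)) i₀ ((fun l => x (eI.symm l)) i₀ + 3) := by
      rw [shiftP_apply]
      have := upd_comp eI x j (x j + 3)
      rw [hj, eI.apply_symm_apply] at this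
      exact this
    show F (fun l => (fun i => shiftP j i (x i)) (eI.symm l)) (eO o) = _
    rw [e, hs]
    rfl
  have h33 : (3 : Fin 6) + 3 = 0 := by decide
  have h2 : ((shiftP j, fun _ => Equiv.addRight 3) :
      (Fin m → Equiv.Perm (Fin 6)) × (Fin k → Equiv.Perm (Fin 6))) ^ 2 = 1 := by
    rw [pow_two]
    refine Prod.ext ?_ ?_
    · funext i
      ext s
      by_cases hi : i = j
      · simp [shiftP, hi, add_assoc, h33]
      · simp [shiftP, hi]
    · funext i
      ext s
      simp [add_assoc, h33]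
  have h1 : ((shiftP j, fun _ => Equiv.addRight 3) :
      (Fin m → Equiv.Perm (Fin 6)) × (Fin k → Equiv.Perm (Fin 6))) ≠ 1 := by
    intro h
    have h3 : shiftP j = 1 := congrArg Prod.fst h
    have h4 : shiftP j j 0 = (1 : Fin m → Equiv.Perm (Fin 6)) j 0 := by rw [h3]
    simp [shiftP] at h4
  have : Fact (Nat.Prime 2) := ⟨Nat.prime_two⟩
  have h5 : orderOf (⟨(shiftP j, fun _ => Equiv.addRight 3), hA⟩ : autGroup C') = 2 := by
    refine orderOf_eq_prime (Subtype.ext h2) (fun h => h1 (congrArg Subtype.val h))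
  rw [even_iff_two_dvd]
  have h6 := orderOf_dvd_natCard (⟨(shiftP j, fun _ => Equiv.addRight 3), hA⟩ : autGroup C')
  rwa [h5] at h6

theorem exists_even {m : ℕ} (hm : 4 ≤ m) :
    ∃ C : Fin (if Even m then m else m + 1) → (Fin m → Fin 6) → Fin 6,
      IsVariationalSet m 6 (if Even m then m else m + 1) C ∧ Even (Nat.card (autGroup C)) := by
  by_cases he : Even m
  · rw [if_pos he]
    obtain ⟨k, rfl⟩ := he.exists_two_nsmul
    obtain ⟨r, rfl⟩ : ∃ r, k = r + 2 := ⟨k - 2, by simp only [smul_eq_mul] at hm; omega⟩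
    obtain ⟨I, O, _, _, _, _, F, c, i₀, h, hs, hI, hO⟩ := exists_fam_shift isTriple_sq isQuad_K r
    have eI : Fin (2 • (r + 2)) ≃ I :=
      (Fintype.equivFinOfCardEq (by rw [hI]; simp only [smul_eq_mul]; ring)).symm
    have eO : Fin (2 • (r + 2)) ≃ O :=
      (Fintype.equivFinOfCardEq (by rw [hO]; simp only [smul_eq_mul]; ring)).symm
    exact ⟨_, var_of_fam h eI eO, even_card_of_shift hs eI eO⟩
  · rw [if_neg he]
    rw [Nat.not_even_iff_odd] at he
    obtain ⟨k, rfl⟩ := he
    obtain ⟨r, rfl⟩ : ∃ r, k = r + 2 := ⟨k - 2, by omega⟩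
    obtain ⟨I, O, _, _, _, _, F, s, a, b, c, i₀, h, hs, -, -, -, -, -, hI, hO⟩ :=
      exists_good_shift isTriple_sq r
    have eI : Fin (2 * (r + 2) + 1) ≃ I :=
      (Fintype.equivFinOfCardEq (by rw [hI]; ring)).symm
    have eO : Fin (2 * (r + 2) + 1 + 1) ≃ O :=
      (Fintype.equivFinOfCardEq (by rw [hO]; ring)).symm
    exact ⟨_, var_of_good h eI eO, even_card_of_shift hs eI eO⟩

theorem le_of_even {m k : ℕ} (hm : 2 ≤ m) {C : Fin k → (Fin m → Fin 6) → Fin 6}
    (hC : IsVariationalSet m 6 k C) (h : Even (Nat.card (autGroup C))) :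
    k ≤ if Even m then m else m + 1 := by
  by_cases he : Even m
  · rw [if_pos he]
    by_contra hcon
    exact absurd h (Nat.not_even_iff_odd.2 (odd_card hm (by omega) hC he))
  · rw [if_neg he]
    exact Pool.Agent.TH302.Tarry.le_of_array hC.2 hm

/-- **Exact maximum, order six, automorphism group of even order, all dimensions `≥ 4`.** -/
theorem isGreatest_even {m : ℕ} (hm : 4 ≤ m) :
    IsGreatest {k : ℕ | ∃ C : Fin k → (Fin m → Fin 6) → Fin 6, IsVariationalSet m 6 k C ∧
      Even (Nat.card (autGroup C))} (if Even m then m else m + 1) := by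
  refine ⟨exists_even hm, ?_⟩
  rintro k ⟨C, hC, h⟩
  exact le_of_even (by omega) hC h

end Pool.Agent.K7.H21.Aut6
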