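import Mathlib

set_option autoImplicit false

/-!
# Latin hypercubes of even dimension and order `2 mod 4`: no autotopism by fixed point free involutions
-/

namespace Pool.Agent.K7.H21.Aut6

open Function Finset

/-- the number of cells of the hypercube whose coordinates lie in the classes prescribed by `a`
and whose symbol lies in `H` iff `b` -/
def cnt {I : Type} [Fintype I] [DecidableEq I] {n : ℕ} (f : (I → Fin n) → Fin n)
    (R : I → Finset (Fin n)) (H : Finset (Fin n)) (a : I → Bool) (b : Bool) : ℕ :=
  (univ.filter fun x : I → Fin n => (∀ i, decide (x i ∈ R i) = a i) ∧ decide (f x ∈ H) = b).card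

/-- the two classes of a set of half the size -/
theorem card_class {n k : ℕ} (hn : n = 2 * k) {H : Finset (Fin n)} (hH : H.card = k) (b : Bool) :
    (univ.filter fun s : Fin n => decide (s ∈ H) = b).card = k := by
  have h1 : ((univ : Finset (Fin n)).filter fun s => s ∈ H).card = k := by
    rw [Finset.filter_univ_mem, hH]
  have h2 : ((univ : Finset (Fin n)).filter fun s => s ∈ H).card +
      ((univ : Finset (Fin n)).filter fun s => ¬ s ∈ H).card = n := by
    rw [Finset.card_filter_add_card_filter_not]
    simp
  cases b with
  | true =>
    have : (univ.filter fun s : Fin n => decide (s ∈ H) = true) = univ.filter fun s => s ∈ H := by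
      ext s; simp
    rw [this, h1]
  | false =>
    have : (univ.filter fun s : Fin n => decide (s ∈ H) = false) =
        univ.filter fun s => ¬ s ∈ H := by
      ext s; simp
    rw [this]
    omega

variable {I : Type} [Fintype I] [DecidableEq I] {n : ℕ} {f : (I → Fin n) → Fin n}

/-- the symbol does not matter -/
theorem cnt_add {k : ℕ} (hn : n = 2 * k) {R : I → Finset (Fin n)} (hR : ∀ i, (R i).card = k)
    (H : Finset (Fin n)) (a : I → Bool) :
    cnt f R H a true + cnt f R H a false = k ^ Fintype.card I := by
  rw [cnt, cnt, ← Finset.card_union_of_disjoint]
  · have e : (univ.filter fun x : I → Fin n => (∀ i, decide (x i ∈ R i) = a i) ∧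
          decide (f x ∈ H) = true) ∪
        (univ.filter fun x : I → Fin n => (∀ i, decide (x i ∈ R i) = a i) ∧
          decide (f x ∈ H) = false) =
        Fintype.piFinset fun i => univ.filter fun s : Fin n => decide (s ∈ R i) = a i := by
      ext x
      rw [Finset.mem_union, Finset.mem_filter, Finset.mem_filter, Fintype.mem_piFinset]
      simp only [Finset.mem_univ, true_and, Finset.mem_filter]
      cases decide (f x ∈ H) <;> simp
    rw [e, Fintype.card_piFinset, Finset.prod_congr rfl (fun i _ => card_class hn (hR i) (a i))]
    simp
  · rw [Finset.disjoint_left]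
    intro x h1 h2
    have e1 := (Finset.mem_filter.1 h1).2.2
    have e2 := (Finset.mem_filter.1 h2).2.2
    rw [e1] at e2
    exact absurd e2 (by decide)

/-- the class of one coordinate does not matter -/
theorem cnt_flip (hf : ∀ (i : I) (x : I → Fin n), Bijective fun t => f (update x i t)) {k : ℕ}
    (hn : n = 2 * k) {R : I → Finset (Fin n)} (hR : ∀ i, (R i).card = k)
    {H : Finset (Fin n)} (hH : H.card = k) (a : I → Bool) (b : Bool) (i : I) :
    cnt f R H (update a i true) b + cnt f R H (update a i false) b = k ^ Fintype.card I := by
  classical
  rw [cnt, cnt, ← Finset.card_union_of_disjoint]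
  · -- replace the coordinate `i` by the symbol
    set T : I → Finset (Fin n) := fun j => if j = i then univ.filter fun s : Fin n =>
      decide (s ∈ H) = b else univ.filter fun s : Fin n => decide (s ∈ R j) = a j with hT
    have hTc : ∀ j, (T j).card = k := by
      intro j
      by_cases hj : j = i
      · simp only [hT, if_pos hj]
        exact card_class hn hH b
      · simp only [hT, if_neg hj]
        exact card_class hn (hR j) (a j)
    have hcard : (Fintype.piFinset T).card = k ^ Fintype.card I := by
      rw [Fintype.card_piFinset, Finset.prod_congr rfl (fun j _ => hTc j)]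
      simp
    rw [← hcard]
    refine Finset.card_bij (fun x _ => update x i (f x)) ?_ ?_ ?_
    · intro x hx
      rw [Fintype.mem_piFinset]
      intro j
      rw [Finset.mem_union, Finset.mem_filter, Finset.mem_filter] at hx
      by_cases hj : j = i
      · subst hj
        simp only [update_self, hT, if_true, Finset.mem_filter, Finset.mem_univ, true_and]
        rcases hx with hx | hx <;> exact hx.2.2
      · rw [update_of_ne hj]
        simp only [hT, if_neg hj, Finset.mem_filter, Finset.mem_univ, true_and]
        rcases hx with hx | hx
        · have := hx.2.1 j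
          rwa [update_of_ne hj] at this
        · have := hx.2.1 j
          rwa [update_of_ne hj] at this
    · intro x _ y _ hxy
      have h1 : ∀ j, j ≠ i → x j = y j := by
        intro j hj
        have := congrFun hxy j
        rwa [update_of_ne hj, update_of_ne hj] at this
      have h2 : f x = f y := by
        have := congrFun hxy i
        rwa [update_self, update_self] at this
      have h3 : y = update x i (y i) := by
        funext j
        by_cases hj : j = i
        · subst hj; rw [update_self]
        · rw [update_of_ne hj]; exact (h1 j hj).symm
      have h4 : x i = y i := by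
        apply (hf i x).1
        show f (update x i (x i)) = f (update x i (y i))
        rw [update_eq_self, ← h3, h2]
      funext j
      by_cases hj : j = i
      · subst hj; exact h4
      · exact h1 j hj
    · intro y hy
      rw [Fintype.mem_piFinset] at hy
      obtain ⟨t, ht⟩ := (hf i y).2 (y i)
      refine ⟨update y i t, ?_, ?_⟩
      · have hyi := hy i
        simp only [hT, if_true, Finset.mem_filter, Finset.mem_univ, true_and] at hyi
        have hyj : ∀ j, j ≠ i → decide (y j ∈ R j) = a j := by
          intro j hj
          have := hy j
          simpa only [hT, if_neg hj, Finset.mem_filter, Finset.mem_univ, true_and] using this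
        rw [Finset.mem_union, Finset.mem_filter, Finset.mem_filter]
        have ht' : decide (f (update y i t) ∈ H) = b := by
          have : f (update y i t) = y i := ht
          rw [this]; exact hyi
        cases hc : decide (t ∈ R i) with
        | true =>
          left
          refine ⟨Finset.mem_univ _, fun j => ?_, ht'⟩
          by_cases hj : j = i
          · subst hj; rw [update_self, update_self]; exact hc
          · rw [update_of_ne hj, update_of_ne hj]; exact hyj j hj
        | false =>
          right
          refine ⟨Finset.mem_univ _, fun j => ?_, ht'⟩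
          by_cases hj : j = i
          · subst hj; rw [update_self, update_self]; exact hc
          · rw [update_of_ne hj, update_of_ne hj]; exact hyj j hj
      · have : f (update y i t) = y i := ht
        rw [this, update_idem, update_eq_self]
  · rw [Finset.disjoint_left]
    intro x h1 h2
    have e1 := (Finset.mem_filter.1 h1).2.1 i
    have e2 := (Finset.mem_filter.1 h2).2.1 i
    rw [update_self] at e1 e2
    rw [e1] at e2
    exact absurd e2 (by decide)

/-- changing the classes of the coordinates in `S` -/
theorem cnt_set (hf : ∀ (i : I) (x : I → Fin n), Bijective fun t => f (update x i t)) {k : ℕ}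
    (hn : n = 2 * k) {R : I → Finset (Fin n)} (hR : ∀ i, (R i).card = k)
    {H : Finset (Fin n)} (hH : H.card = k) (b : Bool) (S : Finset I) :
    (S.card % 2 = 0 → cnt f R H (fun i => decide (i ∉ S)) b = cnt f R H (fun _ => true) b) ∧
      (S.card % 2 = 1 → cnt f R H (fun i => decide (i ∉ S)) b + cnt f R H (fun _ => true) b =
        k ^ Fintype.card I) := by
  induction S using Finset.induction_on with
  | empty => simp
  | insert i S hi ih =>
    obtain ⟨h1, h2⟩ := ih
    have e1 : update (fun j => decide (j ∉ S)) i true = fun j => decide (j ∉ S) := by
      funext j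
      by_cases hj : j = i
      · subst hj; simp [hi]
      · rw [update_of_ne hj]
    have e2 : update (fun j => decide (j ∉ S)) i false = fun j => decide (j ∉ insert i S) := by
      funext j
      by_cases hj : j = i
      · subst hj; simp
      · rw [update_of_ne hj]; simp [hj]
    have hfl := cnt_flip hf hn hR hH (fun j => decide (j ∉ S)) b i
    rw [e1, e2] at hfl
    rw [Finset.card_insert_of_notMem hi]
    constructor
    · intro h3
      have := h2 (by omega)
      omega
    · intro h3
      have := h1 (by omega)
      omega

/-- half of the symbols, one from each pair of an involution without fixed symbols -/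
def half {n : ℕ} (p : Equiv.Perm (Fin n)) : Finset (Fin n) := univ.filter fun s => s < p s

theorem mem_half {n : ℕ} {p : Equiv.Perm (Fin n)} (h2 : ∀ s, p (p s) = s) (h1 : ∀ s, p s ≠ s)
    (s : Fin n) : p s ∈ half p ↔ s ∉ half p := by
  simp only [half, Finset.mem_filter, Finset.mem_univ, true_and, h2, not_lt]
  exact ⟨fun h => h.le, fun h => lt_of_le_of_ne h (h1 s)⟩

theorem card_half {n k : ℕ} (hn : n = 2 * k) {p : Equiv.Perm (Fin n)} (h2 : ∀ s, p (p s) = s)
    (h1 : ∀ s, p s ≠ s) : (half p).card = k := by
  have e : (half p).card = (univ.filter fun s => ¬ s < p s).card := by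
    refine Finset.card_bij (fun s _ => p s) ?_ ?_ ?_
    · intro s hs
      have hs' : s < p s := by simpa [half] using hs
      simp only [Finset.mem_filter, Finset.mem_univ, true_and, h2, not_lt]
      exact hs'.le
    · intro s _ t _ h
      exact p.injective h
    · intro t ht
      have ht' : ¬ t < p t := by simpa using ht
      refine ⟨p t, ?_, h2 t⟩
      have := (mem_half h2 h1 t).2 (by simpa [half] using ht')
      exact this
  have h3 : (half p).card + (univ.filter fun s => ¬ s < p s).card = n := by
    rw [half, Finset.card_filter_add_card_filter_not]
    simp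
  omega

/-- **The parity lemma.** A latin hypercube of even dimension and order `2 mod 4` has no
autotopism all of whose components are involutions without fixed symbols. -/
theorem no_free (hf : ∀ (i : I) (x : I → Fin n), Bijective fun t => f (update x i t))
    (hn : n % 4 = 2) (hI : Fintype.card I % 2 = 0) (p : I → Equiv.Perm (Fin n))
    (q : Equiv.Perm (Fin n)) (hp2 : ∀ i s, p i (p i s) = s) (hp1 : ∀ i s, p i s ≠ s)
    (hq2 : ∀ s, q (q s) = s) (hq1 : ∀ s, q s ≠ s)
    (h : ∀ x, f (fun i => p i (x i)) = q (f x)) : False := by
  classical
  obtain ⟨k, hk⟩ : ∃ k, n = 2 * k := ⟨n / 2, by omega⟩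
  have hk2 : k % 2 = 1 := by omega
  have hR : ∀ i, (half (p i)).card = k := fun i => card_half hk (hp2 i) (hp1 i)
  have hH : (half q).card = k := card_half hk hq2 hq1
  have h1 := (cnt_set hf hk hR hH false univ).1 (by rw [Finset.card_univ]; exact hI)
  have h2 := cnt_add (f := f) hk hR (half q) (fun _ => true)
  have h3 : cnt f (fun i => half (p i)) (half q) (fun _ => true) true =
      cnt f (fun i => half (p i)) (half q) (fun i => decide (i ∉ (univ : Finset I))) false := by
    refine Finset.card_bij (fun x _ => fun i => p i (x i)) ?_ ?_ ?_
    · intro x hx
      rw [Finset.mem_filter] at hx ⊢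
      refine ⟨Finset.mem_univ _, fun i => ?_, ?_⟩
      · have h4 : x i ∈ half (p i) := by simpa using hx.2.1 i
        have h5 : ¬ p i (x i) ∈ half (p i) := by
          rw [mem_half (hp2 i) (hp1 i)]; simpa using h4
        simp [h5]
      · have h4 : f x ∈ half q := by simpa using hx.2.2
        have h5 : ¬ q (f x) ∈ half q := by
          rw [mem_half hq2 hq1]; simpa using h4
        rw [h]
        simp [h5]
    · intro x _ y _ hxy
      funext i
      exact (p i).injective (congrFun hxy i)
    · intro y hy
      rw [Finset.mem_filter] at hy
      refine ⟨fun i => p i (y i), ?_, ?_⟩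
      · rw [Finset.mem_filter]
        refine ⟨Finset.mem_univ _, fun i => ?_, ?_⟩
        · have h4 : ¬ y i ∈ half (p i) := by simpa using hy.2.1 i
          have h5 : p i (y i) ∈ half (p i) := (mem_half (hp2 i) (hp1 i) _).2 h4
          simp [h5]
        · have h4 : ¬ f y ∈ half q := by simpa using hy.2.2
          have h5 : q (f y) ∈ half q := (mem_half hq2 hq1 _).2 h4
          rw [h]
          simp [h5]
      · funext i
        exact hp2 i (y i)
  have h5 : k ^ Fintype.card I % 2 = 1 := by
    rw [Nat.pow_mod, hk2]; simp
  omega

end Pool.Agent.K7.H21.Aut6
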